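import Pool.Agent.TH766.MC.Pairs

/-!
# Nonvanishing for pairs on generically finite covers of projective space over an arrangement

Let `ℓ i = 0` be `q` hyperplanes in projective `n`-space without a common point, an arbitrary
arrangement (general position is not assumed, and the arrangement may be reducible) with exactly `c`
irreducible components, let `X` be a normal projective variety of dimension `n` with a generically
finite rational map to projective space, and let `Δ ≥ 0` be an `ℝ`-divisor on `X`, for instance the
boundary of an l.c. pair. At a prime divisor `P` of `X` whose image lies in the arrangement let `m P`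
be the largest order at `P` of a quotient of the linear forms of two hyperplanes of the same
component, and let `δ P` be the coefficient of `Δ`. If

  `δ P ≥ 1 - m P / (n + 3 - c)`

for all these `P`, then some multiple of `K_X + Δ` has a nonzero section: `κ(X, K_X + Δ) ≥ 0`. If
`c = 1` and there are at least `n + 3` different hyperplanes, then `n + 1` can be taken instead of
`n + 2`. For an irreducible arrangement (`c = 1`) the number `m P` is the largest multiplicity of one
of the hyperplanes at `P`. The bounds do not depend on the number `q` of hyperplanes; the covers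
`y i ^ d = ℓ i` of `n + 2` hyperplanes in general position (Fermat hypersurfaces) show that `n + 2`
cannot be lowered for `c = 1`, and the joins of such arrangements and of points show that
`n + 3 - c` cannot be lowered.

The function-field language of the starting repository is used. `K` is the function field of `X`,
the coordinates `x 0, ..., x n` of the map are elements of `K` whose ratios are a transcendence basis;
the prime divisors of `X` are places `P` of `K` (`Place`, `Divisorial`), `P.ord` is the order along
`P`, and `X` is given by the set of its prime divisors. The boundary `Δ` is given by its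
coefficients `δ P`. A section of `N (K_X + Δ)` is an `N`-canonical form `ω` (`IsPluri`), a function of
`n` rational vector fields, whose value on vector fields that are regular at `P` has order at least
`- N δ P`, for all prime divisors `P` of `X`.

Proof. By a new theorem on the bases of a representable matroid with `c` components
(`Pool.Agent.TH766.MC`, after the method of helper152 in `Pool.Agent.TH152.AC` for `c = 1`), the base
polytope contains a point `b`, `∑ b i = n + 1`, such that the `n`-form with the denominator
`∏ (ℓ i) ^ (b i)` has at `P` order at least `m P / (n + 3 - c) - 1`.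
-/

set_option autoImplicit false

open FF Pool.Agent.W602.Cov Pool.Agent.W602.GT

namespace Pool.Agent.Results.MP_bc213e_ag.ArrangementPairs

/-- The value of a linear form at a vector over `K`. -/
noncomputable def form {n : ℕ} {K : Type} [Field K] [Algebra ℂ K] (φ : Form n)
    (x : Fin (n + 1) → K) : K := ∑ j, algebraMap ℂ K (φ (Pi.single j 1)) * x j

/-- `γ` is a decomposition of the arrangement: in suitable linear coordinates (those of the basis
`e`) the variables are divided into `c` nonempty groups (the variable `a` is in the group `g a`)
such that `ℓ i` is a form in the variables of the group `γ i`. -/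
def Decomposition {n q c : ℕ} (ℓ : Fin q → Form n) (γ : Fin q → Fin c) : Prop :=
  ∃ (e : Module.Basis (Fin (n + 1)) ℂ (Fin (n + 1) → ℂ)) (g : Fin (n + 1) → Fin c),
    Function.Surjective g ∧ ∀ i a, g a ≠ γ i → ℓ i (e a) = 0

/-- There are `n + 3` different hyperplanes. -/
def ManyHyperplanes {n q : ℕ} (ℓ : Fin q → Form n) : Prop :=
  ∃ s : Fin (n + 3) → Fin q, ∀ i j, i ≠ j → ∀ t : ℂ, ℓ (s i) ≠ t • ℓ (s j)

/-- `ω` is a section of `N (K_X + Δ)`, where `X` is given by the set of its prime divisors, and `Δ` has
the coefficient `δ P` at `P`: an `N`-canonical form whose values on vector fields which are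
regular at `P` have order at least `- N δ P`, for all prime divisors `P` of `X`. -/
def IsSection {K : Type} [Field K] [Algebra ℂ K] (n : ℕ) (X : Set (Place ℂ K))
    (δ : Place ℂ K → ℝ) (N : ℕ) (ω : (Fin n → Derivation ℂ K K) → K) : Prop :=
  IsPluri N ω ∧ ∀ P ∈ X, Divisorial n P → ∀ D : Fin n → Derivation ℂ K K,
    (∀ i, DerReg P (D i)) → ω D = 0 ∨ -(N * δ P) ≤ (P.ord (ω D) : ℝ)

/-- The condition on the multiplicities: at every prime divisor `P` of `X` the hyperplane `i` has the
order `a + v i`, where the minimum of the orders of all linear forms is `a`; if some `v i` is not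
`0`, that is, if the image of `P` lies in one of the hyperplanes, then for some hyperplanes `i`, `i'`
of the same component the difference `v i - v i'` is at least `s (1 - δ P)`. -/
def Multiplicities {n q c : ℕ} (ℓ : Fin q → Form n) (γ : Fin q → Fin c) {K : Type} [Field K]
    [Algebra ℂ K] (x : Fin (n + 1) → K) (X : Set (Place ℂ K)) (δ : Place ℂ K → ℝ) (s : ℝ) : Prop :=
  ∀ P ∈ X, Divisorial n P → ∀ (a : ℤ) (v : Fin q → ℕ),
    (∀ φ : Form n, form φ x = 0 ∨ a ≤ P.ord (form φ x)) →
    (∃ φ : Form n, form φ x ≠ 0 ∧ P.ord (form φ x) = a) →
    (∀ i, P.ord (form (ℓ i) x) = a + v i) → v ≠ 0 →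
    ∃ i i', γ i' = γ i ∧ s * (1 - δ P) ≤ (v i : ℝ) - v i'

/-- **Nonvanishing.** Let `X` be a variety of dimension `n ≥ 1` with function field `K` and a generically
finite rational map `[x 0 : ... : x n]` to projective space, let `ℓ i = 0` be an arbitrary
arrangement without common point, `γ` its decomposition into `c` irreducible components (there is
no decomposition into `c + 1` components), and let `Δ ≥ 0` be a real divisor on `X` with coefficients
`δ P ≥ 1 - (v i - v i') / R` at the prime divisors `P` of `X` over the arrangement, for some
hyperplanes `i`, `i'` of the same component (depending on `P`), where `R = n + 3 - c`, or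
`R = n + 1` if `c = 1` and there are `n + 3` different hyperplanes. Then some positive multiple of
`K_X + Δ` has a nonzero section. -/
theorem result (n q c : ℕ) (hn : 1 ≤ n) (ℓ : Fin q → Form n) (hℓ : ∀ i, ℓ i ≠ 0)
    (h0 : ∀ z : Fin (n + 1) → ℂ, (∀ i, ℓ i z = 0) → z = 0) (γ : Fin q → Fin c)
    (hγ : Decomposition ℓ γ) (hc : ∀ γ' : Fin q → Fin (c + 1), ¬ Decomposition ℓ γ')
    (R : ℕ) (hR : R + c = n + 3 ∨ (c = 1 ∧ ManyHyperplanes ℓ ∧ R = n + 1))
    (K : Type) [Field K] [Algebra ℂ K] (x : Fin (n + 1) → K) (hx : x 0 ≠ 0)
    (hbas : IsTranscendenceBasis ℂ (fun j : Fin n => x j.succ / x 0)) (X : Set (Place ℂ K))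
    (δ : Place ℂ K → ℝ) (hδ : ∀ P ∈ X, 0 ≤ δ P) (h : Multiplicities ℓ γ x X δ R) :
    ∃ N : ℕ, 0 < N ∧ ∃ ω : (Fin n → Derivation ℂ K K) → K,
      IsSection n X δ N ω ∧ ∃ D, ω D ≠ 0 := by
  have hspan : Submodule.span ℂ (Set.range ℓ) = ⊤ := by
    by_contra hne
    obtain ⟨z, hz, h1⟩ := Pool.Agent.W392.CG.exists_zero _ hne
    exact hz (h0 z fun i => h1 _ (Submodule.subset_span ⟨i, rfl⟩))
  have hc1 : ¬ Pool.Agent.TH766.MC.Splits ℓ (c + 1) := by
    rintro ⟨e, g, hg, hs⟩
    choose γ' hγ' using hs
    exact hc γ' ⟨e, g, hg, hγ'⟩
  exact Pool.Agent.TH766.MC.pairs_nonvanishing hn hℓ hγ hc1 hspan hR hx hbas X δ hδ h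

end Pool.Agent.Results.MP_bc213e_ag.ArrangementPairs
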