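import Pool.Agent.TH756.PN.TenM

/-!
# Nonvanishing for pairs fibred over products of projective spaces

Let `X` be a normal projective variety of dimension `∑ i, n i + e`, `Δ` an `ℝ`-divisor on `X`, for
instance the boundary of an l.c. pair, and `X ⇢ ∏ i, ℙ ^ (n i)` a dominant rational map, so that its
fibres have dimension `e ≥ 0`. For `i < r` let `ℓ i k = 0`, `k < q i`, be hyperplanes in projective
`n i`-space, an arbitrary arrangement (general position is not assumed). Let `Δ₁ ≥ 0` and `Δ₂` be
`ℝ`-divisors with `Δ₁ + Δ₂ ≤ Δ`, and let `δ₁ P` be the coefficients of `Δ₁`. Suppose: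

* (the base) for each factor there is a bound `g i`, a function of the multiplicities `v i k` of the
  hyperplanes at a prime divisor `P` of `X`. This is either `(max v i k) / (n i + 2)`, or
  `(max v i k) / (n i + 1)` if the arrangement does not consist of `n i + 2` hyperplanes in general
  position (for these two the arrangement must not be reducible), or the (combinatorial) log
  discrepancy with respect to a log Calabi-Yau pair `(ℙ ^ (n i), ∑ w k H k)` with rational weights
  `w k` on the hyperplanes `H k`. The condition is that `∑ i, g i (v i) ≥ 1 - δ₁ P` at all prime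
  divisors `P` of `X` whose image lies in one of the hyperplanes;
* (the fibres) some positive multiple `m (K_F + Δ₂)` has sections with `lam` algebraically
  independent ratios over the function field of the base. Here `K_F` is the canonical class of the
  foliation which is given by the fibres; such a section is an `m`-canonical form `θ` along the
  fibres, a function of `e` rational vector fields which are tangent to the fibres, and its order at
  a prime divisor `P` of `X` on tangent fields which are regular at `P` is at least `- m δ₂ P`. For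
  instance any holomorphic `e`-form on a resolution of `X` which does not vanish on the general fibre
  gives such a section with `Δ₂ = 0`, `m = 1`, `lam = 0`.

Call the `i`-th factor big if there is a hyperplane such that the inequality is strict for all `P`
whose image lies in it. Then `κ (X, K_X + Δ)` is at least `lam` plus the sum of the numbers `n i` over
the big factors. In particular `K_X + Δ` is effective.

The function-field language of the starting repository is used. `K` is the function field of `X`, the
coordinates of the map to the `i`-th factor are `x i 0, ..., x i (n i)`; the prime divisors of `X` are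
places `P` of `K` (`Place`, `Divisorial`), `P.ord` is the order along `P`, and `X` is given by the set
of its prime divisors. A section of `N (K_X + Δ)` is an `N`-canonical form `ω` (`IsPluri`), a function
of `∑ i, n i + e` rational vector fields, whose value on vector fields that are regular at `P` has
order at least `- N δ P`, for all prime divisors `P` of `X`. The rational vector fields which are
tangent to the fibres are the derivations of `K` over the function field of the base.

Proof (`Pool.Agent.TH756.PN`, files `Ten`, `TenM`). The forms on the base are those of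
`Pool.Agent.TH756.PN` (products of powers of `x i ^ (n i + 1) dt / ∏ ℓ`, over bases of the
arrangements with suitable weights, times monomials); they are combined with the forms along the
fibres by `Pool.Agent.TH585.SV.Fib8` of helper585, which applies to every frame of rational vector
fields adapted to the map.
-/

set_option autoImplicit false

open FF Module Pool.Agent.W602.Cov Pool.Agent.W602.GT Pool.Agent.TH152.AC

namespace Pool.Agent.Results.MP_bc213e_ag.FibredOverProducts

section bounds

variable {n q : ℕ}

/-- In suitable linear coordinates `X 0, ..., X n` each of the hyperplanes is one of `X j = 0` or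
`X 0 + ... + X n = 0`. The arrangements with this property which are not reducible are, up to
repetitions, the arrangements of `n + 2` hyperplanes in general position. -/
def Simplicial (ℓ : Fin q → Form n) : Prop :=
  ∃ X : Basis (Fin (n + 1)) ℂ (Form n), ∀ i,
    (∃ c : ℂ, ℓ i = c • ∑ j, X j) ∨ ∃ (j : Fin (n + 1)) (c : ℂ), ℓ i = c • X j

/-- `(ℙ ^ n, ∑ w k H k)` is a log Calabi-Yau pair with rational weights: `w` is a rational convex
combination of the vectors with entries `1` for the `n + 1` hyperplanes of a basis `B` (that is, of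
`n + 1` linearly independent ones) and `0` for all others. -/
def LogCalabiYau (ℓ : Fin q → Form n) (w : Fin q → ℚ) : Prop :=
  ∃ p : Bases ℓ → ℕ, 0 < ∑ B, p B ∧ ∀ k, (∑ B, (p B : ℚ)) * w k =
    ∑ B, (p B : ℚ) * ((Finset.univ.filter fun a => B.1 a = k).card : ℚ)

/-- The maximum of the sums of the `v k` over the bases, minus the sum of the `w k * v k`. This is the
log discrepancy of the pair `(ℙ ^ n, ∑ w k H k)` at the toric divisors over the projective space along
which the hyperplanes have the multiplicities `v k`, and a lower bound for it at all divisors with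
these multiplicities. -/
noncomputable def logDiscrepancy (ℓ : Fin q → Form n) (w : Fin q → ℚ) (v : Fin q → ℕ) : ℚ :=
  ((Finset.univ.sup fun B : Bases ℓ => ∑ a, v (B.1 a) : ℕ) : ℚ) - ∑ k, w k * v k

/-- The bounds for one arrangement. -/
inductive Bound (ℓ : Fin q → Form n) : ((Fin q → ℕ) → ℚ) → Prop
  | irreducible : ¬ Reducible ℓ →
      Bound ℓ fun v => ((Finset.univ.sup v : ℕ) : ℚ) / ((n + 2 : ℕ) : ℚ)
  | notSimplicial : ¬ Reducible ℓ → ¬ Simplicial ℓ →
      Bound ℓ fun v => ((Finset.univ.sup v : ℕ) : ℚ) / ((n + 1 : ℕ) : ℚ)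
  | logCalabiYau (w : Fin q → ℚ) : LogCalabiYau ℓ w → Bound ℓ (logDiscrepancy ℓ w)

end bounds

/-- The value of a linear form at a vector over `K`. -/
noncomputable def form {n : ℕ} {K : Type} [Field K] [Algebra ℂ K] (φ : Form n)
    (x : Fin (n + 1) → K) : K := ∑ j, algebraMap ℂ K (φ (Pi.single j 1)) * x j

section divisors

variable {r : ℕ} {n q : Fin r → ℕ} {K : Type} [Field K] [Algebra ℂ K]

/-- The affine coordinates of the product of the projective spaces. -/
noncomputable def affine (x : ∀ i, Fin (n i + 1) → K) (b : (i : Fin r) × Fin (n i)) : K :=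
  x b.1 b.2.succ / x b.1 0

/-- The function field of the product of the projective spaces, as a subfield of `K`. -/
noncomputable def BaseField (x : ∀ i, Fin (n i + 1) → K) : IntermediateField ℂ K :=
  IntermediateField.adjoin ℂ (Set.range (affine x))

/-- The hyperplanes `ℓ i k` have the multiplicities `v i k` at `P`: their orders are `a i + v i k`,
where `a i` is the minimum of the orders of all linear forms on the `i`-th factor. -/
def Multiplicities (ℓ : ∀ i, Fin (q i) → Form (n i)) (x : ∀ i, Fin (n i + 1) → K)
    (P : Place ℂ K) (a : Fin r → ℤ) (v : ∀ i, Fin (q i) → ℕ) : Prop :=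
  (∀ i (φ : Form (n i)), form φ (x i) = 0 ∨ a i ≤ P.ord (form φ (x i))) ∧
    (∀ i, ∃ φ : Form (n i), form φ (x i) ≠ 0 ∧ P.ord (form φ (x i)) = a i) ∧
    ∀ i k, P.ord (form (ℓ i k) (x i)) = a i + v i k

/-- The inequality `∑ i, g i (v i) ≥ 1 - δ P` at all prime divisors `P` of `X`, a variety of dimension
`w`, whose image lies in one of the hyperplanes. -/
def Inequality (w : ℕ) (ℓ : ∀ i, Fin (q i) → Form (n i)) (x : ∀ i, Fin (n i + 1) → K)
    (X : Set (Place ℂ K)) (δ : Place ℂ K → ℝ) (g : ∀ i, (Fin (q i) → ℕ) → ℚ) : Prop :=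
  ∀ P ∈ X, Divisorial w P → ∀ a (v : ∀ i, Fin (q i) → ℕ), Multiplicities ℓ x P a v →
    (∃ i, v i ≠ 0) → 1 - δ P ≤ ((∑ i, g i (v i) : ℚ) : ℝ)

/-- The `i`-th factor is big: for some hyperplane of this factor the inequality is strict at all prime
divisors of `X` whose image lies in this hyperplane. -/
def Big (w : ℕ) (ℓ : ∀ i, Fin (q i) → Form (n i)) (x : ∀ i, Fin (n i + 1) → K)
    (X : Set (Place ℂ K)) (δ : Place ℂ K → ℝ) (g : ∀ i, (Fin (q i) → ℕ) → ℚ) (i : Fin r) : Prop :=
  ∃ k, ∀ P ∈ X, Divisorial w P → ∀ a (v : ∀ i, Fin (q i) → ℕ),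
    Multiplicities ℓ x P a v → v i k ≠ 0 → 1 - δ P < ((∑ i, g i (v i) : ℚ) : ℝ)

end divisors

section sections

variable {K : Type} [Field K] [Algebra ℂ K]

/-- `θ` is a section of `m (K_F + Δ)`, where `K_F` is the canonical class of the foliation of `X` (a
variety of dimension `w` which is given by the set of its prime divisors) whose tangent vector
fields are the derivations over the field `L`, `e` the dimension of the leaves: an `m`-canonical
form on the tangent vector fields whose values on tangent fields which are regular at `P` have order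
at least `- m δ P`, for all prime divisors `P` of `X`. -/
def IsFibreSection (w m : ℕ) {e : ℕ} (X : Set (Place ℂ K))
    (δ : Place ℂ K → ℝ) (L : IntermediateField ℂ K) (θ : (Fin e → Derivation L K K) → K) : Prop :=
  IsPluri m θ ∧ ∀ P ∈ X, Divisorial w P → ∀ G : Fin e → Derivation L K K,
    (∀ i f, P.Reg f → P.Reg (G i f)) → θ G = 0 ∨ -(m * δ P) ≤ (P.ord (θ G) : ℝ)

/-- The Iitaka dimension of `K_F + Δ` over the base is at least `lam`: some positive multiple has
sections with `lam` ratios which are algebraically independent over `L` (a nonzero section, if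
`lam = 0`). -/
def FibreKodairaGe (w e : ℕ) (X : Set (Place ℂ K))
    (δ : Place ℂ K → ℝ) (L : IntermediateField ℂ K) (lam : ℕ) : Prop :=
  ∃ m : ℕ, 0 < m ∧ ∃ θ : Fin (lam + 1) → (Fin e → Derivation L K K) → K,
    (∀ b, IsFibreSection w m X δ L (θ b)) ∧
    ∃ G, θ 0 G ≠ 0 ∧ AlgebraicIndependent L (fun i : Fin lam => θ i.succ G / θ 0 G)

/-- `ω` is a section of `N (K_X + Δ)`, where `X` of dimension `w` is given by the set of its prime
divisors, and `Δ` has the coefficient `δ P` at `P`: an `N`-canonical form whose values on vector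
fields which are regular at `P` have order at least `- N δ P`, for all prime divisors `P` of `X`. -/
def IsSection (w : ℕ) (X : Set (Place ℂ K))
    (δ : Place ℂ K → ℝ) (N : ℕ) (ω : (Fin w → Derivation ℂ K K) → K) : Prop :=
  IsPluri N ω ∧ ∀ P ∈ X, Divisorial w P → ∀ D : Fin w → Derivation ℂ K K,
    (∀ i, DerReg P (D i)) → ω D = 0 ∨ -(N * δ P) ≤ (P.ord (ω D) : ℝ)

/-- The Iitaka dimension of `K_X + Δ` is at least `κ`: some positive multiple has sections with `κ`
algebraically independent ratios (a nonzero section, if `κ = 0`). -/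
def KodairaGe (w : ℕ) (X : Set (Place ℂ K))
    (δ : Place ℂ K → ℝ) (κ : ℕ) : Prop :=
  ∃ N : ℕ, 0 < N ∧ ∃ ω : Fin (κ + 1) → (Fin w → Derivation ℂ K K) → K,
    (∀ j, IsSection w X δ N (ω j)) ∧
    ∃ D, ω 0 D ≠ 0 ∧ AlgebraicIndependent ℂ (fun i : Fin κ => ω i.succ D / ω 0 D)

end sections

open scoped Classical in
/-- **Nonvanishing.** Let `X` be a variety of dimension `∑ i, n i + e` with function field `K` and a
dominant rational map to the product of the projective `n i`-spaces, let `Δ₁ ≥ 0`, `Δ₂`,
`Δ ≥ Δ₁ + Δ₂` be real divisors on `X` and let `g i` be bounds for the arrangements `ℓ i` such that the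
inequality holds for `Δ₁`. Let the Iitaka dimension of `K_F + Δ₂` over the base, for the foliation of
the fibres, be at least `lam ≥ 0`. Then the Iitaka dimension of `K_X + Δ` is at least `h + lam`, where
`h` is the sum of the `n i` over the big factors; in particular a multiple of `K_X + Δ` has a nonzero
section. -/
theorem result (r e lam : ℕ) (n q : Fin r → ℕ) (hn : ∀ i, 1 ≤ n i)
    (ℓ : ∀ i, Fin (q i) → Form (n i)) (hℓ : ∀ i k, ℓ i k ≠ 0)
    (g : ∀ i, (Fin (q i) → ℕ) → ℚ) (hg : ∀ i, Bound (ℓ i) (g i))
    (K : Type) [Field K] [Algebra ℂ K] (hK : Algebra.trdeg ℂ K = ((∑ i, n i) + e : ℕ))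
    (x : ∀ i, Fin (n i + 1) → K) (hx : ∀ i, x i 0 ≠ 0) (hdom : AlgebraicIndependent ℂ (affine x))
    (X : Set (Place ℂ K)) (hX : ∀ f : K, f ≠ 0 → {P ∈ X | P.ord f ≠ 0}.Finite)
    (δ₁ δ₂ δ : Place ℂ K → ℝ) (hδ₁ : ∀ P ∈ X, 0 ≤ δ₁ P) (hδ : ∀ P ∈ X, δ₁ P + δ₂ P ≤ δ P)
    (hineq : Inequality ((∑ i, n i) + e) ℓ x X δ₁ g)
    (hF : FibreKodairaGe ((∑ i, n i) + e) e X δ₂ (BaseField x) lam) :
    KodairaGe ((∑ i, n i) + e) X δ
      ((∑ i with Big ((∑ i, n i) + e) ℓ x X δ₁ g i, n i) + lam) := by
  have hwtd : ∀ i, Pool.Agent.TH756.PN.Wtd (ℓ i) (g i) := by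
    intro i
    obtain ⟨G, hG⟩ : ∃ G, G = g i := ⟨_, rfl⟩
    have h1 := hg i
    rw [← hG] at h1 ⊢
    cases h1 with
    | irreducible h2 =>
      exact Pool.Agent.TH756.PN.wtd_slack (by omega)
        (Pool.Agent.TH756.PR.slack_of_bnd (hn i) (hℓ i) h2 (Or.inl rfl))
        (Pool.Agent.W392.CG.span_top (hn i) (ℓ i) h2)
    | notSimplicial h2 h3 =>
      exact Pool.Agent.TH756.PN.wtd_slack (by omega)
        (Pool.Agent.TH756.PR.slack_of_bnd (hn i) (hℓ i) h2 (Or.inr ⟨rfl, Or.inr h3⟩))
        (Pool.Agent.W392.CG.span_top (hn i) (ℓ i) h2)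
    | logCalabiYau w h2 => exact Pool.Agent.TH756.PN.BasePt.wtd h2
  have hne : ∀ i, Nonempty (Fin (q i)) := by
    intro i
    by_contra hcon
    rw [not_nonempty_iff] at hcon
    have h1 := (hwtd i).span
    rw [Set.range_eq_empty, Submodule.span_empty] at h1
    have h2 : (LinearMap.proj 0 : Form (n i)) ∈ (⊥ : Submodule ℂ (Form (n i))) := by
      rw [h1]
      trivial
    rw [Submodule.mem_bot] at h2
    have h3 := LinearMap.congr_fun h2 (Pi.single 0 1)
    simp at h3
  have hk0 : ∀ i, ∃ k : Fin (q i), Big ((∑ i, n i) + e) ℓ x X δ₁ g i → ∀ P ∈ X,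
      Divisorial ((∑ i, n i) + e) P → ∀ a (v : ∀ i, Fin (q i) → ℕ),
        Multiplicities ℓ x P a v → v i k ≠ 0 → 1 - δ₁ P < ((∑ i, g i (v i) : ℚ) : ℝ) := by
    intro i
    by_cases hi : Big ((∑ i, n i) + e) ℓ x X δ₁ g i
    · obtain ⟨k, hk⟩ := hi
      exact ⟨k, fun _ => hk⟩
    · exact ⟨Classical.choice (hne i), fun h' => absurd h' hi⟩
  choose k0 hk0 using hk0
  obtain ⟨m, hm, θ, hθ, G, hG⟩ := hF
  obtain ⟨T, hT, ω, hω, hD⟩ := Pool.Agent.TH756.PN.fibred_main (K := K) (x := x) (ℓ := ℓ) (m := e)
    hK hℓ g hwtd hx hdom X hX δ₁ δ₂ δ hδ₁ hδ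
    (Finset.univ.filter fun i => Big ((∑ i, n i) + e) ℓ x X δ₁ g i) k0
    (fun P hP hd a v hv hv0 => ⟨hineq P hP hd a v hv hv0, fun ⟨i, hi, hvi⟩ =>
      hk0 i (Finset.mem_filter.1 hi).2 P hP hd a v hv hvi⟩) hm (θ := θ)
    (fun b => (hθ b).1) (fun P hP hd G hG b => (hθ b).2 P hP hd G hG) ⟨G, hG⟩
  exact ⟨T, hT, ω, fun j => ⟨(hω j).1, (hω j).2⟩, hD⟩

end Pool.Agent.Results.MP_bc213e_ag.FibredOverProducts
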