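import Pool.Agent.TH585.SV.Lin2

/-!
# Nonvanishing for pairs with a linear system that has powerful members

Let `X` be a normal projective variety of dimension `d`, `Δ ≥ 0` an `ℝ`-divisor on `X`, for instance
the boundary of an l.c. pair, and `|V|` a linear system on `X` without fixed components, of dimension
`n > d`, which defines a generically finite rational map from `X` onto its image, a nondegenerate
subvariety of dimension `d` of `n`-dimensional projective space; the image may be any variety. Let
`D i` (`i < q`) be finitely many members of `|V|` which span `V`, in arbitrary position, and let `c` be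
the number of the components of this configuration: `V` is the direct sum of `c` nonzero subspaces
such that each `D i` belongs to one of them, the component of `D i`, and there is no such
decomposition into `c + 1` subspaces. For a prime divisor `P` of `X` which is a component of some
`D i` let `m P` be the largest difference of the multiplicities of `P` in two members `D i`, `D i'` of
the same component of the configuration (if `c = 1`, this is the largest multiplicity of `P` in the
divisors `D i`), and let `δ P` be the coefficient of `Δ`. If

  `1 - δ P ≤ m P / s`,   `s = (n + 3 - c) (n - d + 1) (n - d + 2) / 2`,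

for all these `P`, then some multiple of `K_X + Δ` has a nonzero section: `κ(X, K_X + Δ) ≥ 0`. If
`c = 1` and there are at least `n + 3` different members then `n + 1` can be taken instead of `n + 2`.
If `s` is greater than this bound, then the Kodaira dimension of `K_X + Δ` is at least `d + 1 - c`. The
number `q` of members does not appear in the bound, and nefness is not needed.

The function-field language of the starting repository is used. `K` is the function field of `X`;
the prime divisors of `X` are places `P` of `K` (`Place`, `Divisorial`), `P.ord` is the order along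
`P`, and `X` is given by the set of its prime divisors. The linear system is given by the finite
dimensional space `V` of rational functions: if `a` is the minimum of the orders at `P` of the
members of `V` then the multiplicity of `P` in the divisor of the system which is given by `f ∈ V` is
`P.ord f - a`. A section of `N (K_X + Δ)` is an `N`-canonical form `ω` (`IsPluri`), a function of `d`
rational vector fields, whose value on vector fields that are regular at `P` has order at least
`- N δ P`, for all prime divisors `P` of `X`.

Proof (`Pool.Agent.TH585.SV`). The form is a power of a generalised Wronskian divided by a product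
of members. The rows of the Wronskian are a basis `x` of `V`, the derivatives `E x` along `d` vector
fields, and `n - d` words in the first order operators of helper152 (`Pool.Agent.TH152.HY.Words`),
of minimal total length. The first `d + 1` rows transform under a change of the vector fields like a
canonical form and lose only one pole order at a prime divisor; the words have lengths at most
`2, 3, …, n - d + 1`. The product of members is given by the weights on the bases of an arrangement
with `c` components of helper766 (`Pool.Agent.TH766.MC`).
-/

set_option autoImplicit false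

open FF Pool.Agent.W602.GT

namespace Pool.Agent.Results.MP_bc213e_ag.LinearSystemNonvanishing

/-- The rational map which is given by the linear system `V` is generically finite onto its image:
the function field `K` is algebraic over the field generated by the quotients of the members. -/
def GenericallyFinite {K : Type} [Field K] [Algebra ℂ K] (V : Submodule ℂ K) : Prop :=
  Algebra.IsAlgebraic (IntermediateField.adjoin ℂ {y : K | ∃ f ∈ V, ∃ g ∈ V, y = f / g}) K

/-- `γ` is a decomposition of the configuration of the members `φ i` of `V` into `c` components: `V`
has a basis of `n + 1` elements `x a`, divided into `c` nonempty groups (`x a` is in the group `g a`),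
such that `φ i` is in the subspace spanned by the elements of the group `γ i`. -/
def Decomposition (n : ℕ) {q c : ℕ} {K : Type} [Field K] [Algebra ℂ K] (V : Submodule ℂ K)
    (φ : Fin q → K) (γ : Fin q → Fin c) : Prop :=
  ∃ (x : Fin (n + 1) → K) (g : Fin (n + 1) → Fin c), LinearIndependent ℂ x ∧
    Submodule.span ℂ (Set.range x) = V ∧ Function.Surjective g ∧
    ∀ i, φ i ∈ Submodule.span ℂ (x '' {a | g a = γ i})

/-- There are `r` members `φ i` of which no two are proportional. -/
def Different (r : ℕ) {q : ℕ} {K : Type} [Field K] [Algebra ℂ K] (φ : Fin q → K) : Prop :=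
  ∃ τ : Fin r → Fin q, ∀ i j, i ≠ j → ∀ t : ℂ, φ (τ i) ≠ t • φ (τ j)

/-- The condition on the multiplicities: if the prime divisor `P` of `X` is a component of one of the
divisors `D i` (the order of `φ i` at `P` is not the minimum `a` of the orders of the members of
`V`), then for some members `D i`, `D i'` of the same component of the configuration the difference
of the multiplicities of `P` is at least `s (1 - δ P)`. -/
def Multiplicities (d : ℕ) {q c : ℕ} {K : Type} [Field K] [Algebra ℂ K] (V : Submodule ℂ K)
    (φ : Fin q → K) (γ : Fin q → Fin c) (X : Set (Place ℂ K)) (δ : Place ℂ K → ℝ) (s : ℝ) : Prop :=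
  ∀ P ∈ X, Divisorial d P → ∀ a : ℤ, (∀ f ∈ V, f = 0 ∨ a ≤ P.ord f) →
    (∃ f ∈ V, f ≠ 0 ∧ P.ord f = a) → (∃ i, P.ord (φ i) ≠ a) →
    ∃ i i', γ i' = γ i ∧ s * (1 - δ P) ≤ ((P.ord (φ i) - P.ord (φ i') : ℤ) : ℝ)

/-- `ω` is a section of `N (K_X + Δ)`, where `X` is given by the set of its prime divisors, and `Δ` has
the coefficient `δ P` at `P`: an `N`-canonical form whose values on vector fields which are
regular at `P` have order at least `- N δ P`, for all prime divisors `P` of `X`. -/
def IsSection {K : Type} [Field K] [Algebra ℂ K] (d : ℕ) (X : Set (Place ℂ K))
    (δ : Place ℂ K → ℝ) (N : ℕ) (ω : (Fin d → Derivation ℂ K K) → K) : Prop :=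
  IsPluri N ω ∧ ∀ P ∈ X, Divisorial d P → ∀ D : Fin d → Derivation ℂ K K,
    (∀ i, DerReg P (D i)) → ω D = 0 ∨ -(N * δ P) ≤ (P.ord (ω D) : ℝ)

/-- The Kodaira dimension of `K_X + Δ` is at least `κ`: some positive multiple has sections with `κ`
algebraically independent ratios (a nonzero section, if `κ = 0`). -/
def KodairaGe {K : Type} [Field K] [Algebra ℂ K] (d : ℕ) (X : Set (Place ℂ K))
    (δ : Place ℂ K → ℝ) (κ : ℕ) : Prop :=
  ∃ N : ℕ, 0 < N ∧ ∃ ω : Fin (κ + 1) → (Fin d → Derivation ℂ K K) → K,
    (∀ j, IsSection d X δ N (ω j)) ∧
    ∃ D, ω 0 D ≠ 0 ∧ AlgebraicIndependent ℂ (fun i : Fin κ => ω i.succ D / ω 0 D)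

/-- **Nonvanishing.** Let `K` be the function field of a variety `X` of dimension `d ≥ 1`, `V` a linear
system of dimension `n > d` on `X` which defines a generically finite map onto the image, `φ i`
nonzero members which span `V`, `γ` their decomposition into `c` components (there is no
decomposition into `c + 1` components), and `R = n + 3 - c`, or `R = n + 1` if `c = 1` and there are
`n + 3` different members. Let `Δ ≥ 0` be a real divisor on `X` which satisfies the condition on the
multiplicities with a number `s ≥ R (n - d + 1) (n - d + 2) / 2`. Then some positive multiple of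
`K_X + Δ` has a nonzero section. If `s` is greater than this bound and `κ = d + 1 - c` is not negative
then the Kodaira dimension of `K_X + Δ` is at least `κ`. (For `n = d`, dominant maps to projective
space, see `ArrangementPairs` of helper766.) -/
theorem result (d n q c : ℕ) (hd : 1 ≤ d) (hdn : d < n) (K : Type) [Field K] [Algebra ℂ K]
    (hK : Algebra.trdeg ℂ K = d) (V : Submodule ℂ K) (hgf : GenericallyFinite V)
    (φ : Fin q → K) (hφ0 : ∀ i, φ i ≠ 0) (hφ : Submodule.span ℂ (Set.range φ) = V)
    (γ : Fin q → Fin c) (hγ : Decomposition n V φ γ)
    (hc : ∀ γ' : Fin q → Fin (c + 1), ¬ Decomposition n V φ γ')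
    (R : ℕ) (hR : R + c = n + 3 ∨ (c = 1 ∧ Different (n + 3) φ ∧ R = n + 1))
    (X : Set (Place ℂ K)) (δ : Place ℂ K → ℝ) (hδ : ∀ P ∈ X, 0 ≤ δ P) (s : ℝ)
    (hs : (R : ℝ) * (((n : ℝ) - d + 1) * ((n : ℝ) - d + 2)) ≤ 2 * s)
    (h : Multiplicities d V φ γ X δ s) :
    KodairaGe d X δ 0 ∧
    ∀ κ : ℕ, κ + c = d + 1 → (R : ℝ) * (((n : ℝ) - d + 1) * ((n : ℝ) - d + 2)) < 2 * s →
      KodairaGe d X δ κ := by
  obtain ⟨k, rfl⟩ := Nat.exists_eq_add_of_lt hdn
  have e : ((d + k + 1 : ℕ) : ℝ) - d = ((k + 1 : ℕ) : ℝ) := by
    push_cast
    ring
  rw [e] at hs ⊢
  obtain ⟨h1, h2⟩ := Pool.Agent.TH585.SV.lin_kod (k := k + 1) hd (by omega) hK hgf hφ0 hφ hγ hc hR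
    X δ hδ hs h
  refine ⟨?_, fun κ hκ hs' => h2 κ hκ hs'⟩
  obtain ⟨N, hN, ω, hω, D, hD⟩ := h1
  refine ⟨N, hN, fun _ => ω, fun _ => hω, D, hD, ?_⟩
  rw [algebraicIndependent_empty_type_iff]
  exact (algebraMap ℂ K).injective

end Pool.Agent.Results.MP_bc213e_ag.LinearSystemNonvanishing
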