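import Pool.Agent.TH194.LP.Unmixed

/-! Nonvanishing for log canonical pairs on quotients of products of open curves. -/

set_option autoImplicit false
set_option linter.overlappingInstances false

universe u

open FF IntermediateField Pool.Agent.W619.PQ Pool.Agent.W619.PL Pool.Agent.W619.TW
  Pool.Agent.W619.X Pool.Agent.W619.Y Pool.Agent.TH194.LP

namespace Pool.Agent.Results.MP_bc213e_ag.OpenProductPairs

/-- Let `Z` be a projective variety of dimension `n` with function field `L`, `F i` (`i < n`) the
function fields of curves `C i` with rational maps `Z → C i` such that `Z → ∏ C i` is generically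
finite (`halg`), `G` a finite group of automorphisms of `L` preserving each `F i`, and `B i` a
finite set of points of `C i / G`. Let `(X, D + Δ)` be a pair, `X` a projective manifold birational
to `Z / G`, `D` a reduced divisor with normal crossings such that the divisors over `D` are those
over a point of some `B i`, and `Δ` an effective `ℝ`-divisor with multiplicity `δ v` along the
divisor `v`. Let `P` be a set of indices such that `C i` minus the preimage of `B i` is not the
projective line or the affine line for `i` in `P`, and assume that `Δ` is at most the pull-back of a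
divisor from the quotient of the product of the curves in `P`. Assume `LogNonnegCond`, for instance
that each `g ≠ 1` in `G` moves at least `6` of the curves, or that each `g ≠ 1` moves at least `2`
of the curves and all `B i` are nonempty.

If none of the open curves `C i` minus the preimage of `B i` is the projective line or the affine
line, then a positive multiple of `K_X + D + Δ` is effective. If `Z` is the product of the curves,
then `K_X + D + Δ` is pseudo-effective if and only if a positive multiple of it is effective, and if
and only if none of the open curves is the projective line or the affine line. -/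
theorem result {L : Type u} [Field L] [Algebra ℂ L] (n : ℕ) (hn : Algebra.trdeg ℂ L = n)
    (F : Fin n → IntermediateField ℂ L) (hF : ∀ i, IsFF ℂ (F i))
    (halg : Algebra.IsAlgebraic ↥(⨆ i, F i) L)
    (G : Subgroup (L ≃ₐ[ℂ] L)) [Finite G] (hst : ∀ i, ∀ g ∈ G, ∀ z ∈ F i, g z ∈ F i)
    (B : ∀ i, Set (Place ℂ ↥(F i ⊓ fixedField G))) (hB : ∀ i, (B i).Finite)
    (h : LogNonnegCond G F B) (δ : Place ℂ (fixedField G) → ℝ) (hδ : ∀ v, 0 ≤ δ v)
    (P : Set (Fin n)) (hP : ∀ i ∈ P, ¬ IsNegative (inf_le_left : F i ⊓ fixedField G ≤ F i) (B i))
    (hδP : BoundedByR (⨆ i : P, F i) n δ) :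
    ((∀ i, ¬ IsNegative (inf_le_left : F i ⊓ fixedField G ≤ F i) (B i)) →
      LPEff ℂ (fixedField G) n (QBd F G B) δ) ∧
    ((⨆ i, F i = ⊤) →
      (LPPsef ℂ (fixedField G) n (QBd F G B) δ ↔ LPEff ℂ (fixedField G) n (QBd F G B) δ) ∧
      (LPEff ℂ (fixedField G) n (QBd F G B) δ ↔
        ∀ i, ¬ IsNegative (inf_le_left : F i ⊓ fixedField G ≤ F i) (B i))) :=
  lpU_nv n hn F hF halg G hst B hB h δ hδ P hP hδP

end Pool.Agent.Results.MP_bc213e_ag.OpenProductPairs
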